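import Mathlib
import Pool.Agent.MP_96f5a9_co.h22.Final

/-! Apery elements along one period in a graded cancellative monoid. -/

set_option autoImplicit false

namespace Pool.Agent.MP_96f5a9_co.h16t

open Finset Pool.Agent.MP_96f5a9_co.h22

/-- A submonoid `Z` of a graded monoid containing all levels `≥ c`, a period `v` of level `h`,
class representatives `R` for a slab `U`. -/
structure Ap (M : Type) [AddCancelCommMonoid M] where
  lam : M →+ ℕ
  Z : AddSubmonoid M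
  v : M
  h : ℕ
  c : ℕ
  R : Finset M
  U : Set M
  hh : 0 < h
  hc : 0 < c
  hv : v ∈ Z
  hlv : lam v = h
  hR : ∀ r ∈ R, lam r < h
  hUR : ∀ r ∈ R, ∀ k : ℕ, r + k • v ∈ U
  hUc : ∀ y z, y + z ∈ U → y ∈ U
  hUd : ∀ x ∈ U, ∃ r ∈ R, ∃ k : ℕ, x = r + k • v
  htop : ∀ x, c ≤ lam x → x ∈ Z

/-- charge of `τ` copies of a part of level `a` -/
def psi (h a τ : ℕ) : ℕ := if τ = 0 then 0 else τ * a / h + 1

namespace Ap

variable {M : Type} [AddCancelCommMonoid M] (D : Ap M)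

theorem lam_add (r : M) (k : ℕ) : D.lam (r + k • D.v) = D.lam r + D.h * k := by
  rw [map_add, map_nsmul, D.hlv, smul_eq_mul, mul_comm]

theorem ex_lev (r : M) : r + qq D.c D.h (D.lam r) • D.v ∈ D.Z := by
  refine D.htop _ ?_
  rw [lam_add]
  have h2 : ¬ (qq D.c D.h (D.lam r) < qq D.c D.h (D.lam r)) := lt_irrefl _
  rw [lt_qq D.hh] at h2
  omega

open Classical in
/-- level of the Apery element of the class of `r` -/
noncomputable def lev (r : M) : ℕ :=
  Nat.find (⟨_, D.ex_lev r⟩ : ∃ l : ℕ, r + l • D.v ∈ D.Z)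

theorem lev_spec (r : M) : r + D.lev r • D.v ∈ D.Z := by
  classical
  exact Nat.find_spec (⟨_, D.ex_lev r⟩ : ∃ l : ℕ, r + l • D.v ∈ D.Z)

theorem lev_le (r : M) {l : ℕ} (h : r + l • D.v ∈ D.Z) : D.lev r ≤ l := by
  classical
  exact Nat.find_min' (⟨_, D.ex_lev r⟩ : ∃ l : ℕ, r + l • D.v ∈ D.Z) h

theorem lev_le_qq (r : M) : D.lev r ≤ qq D.c D.h (D.lam r) := D.lev_le r (D.ex_lev r)

theorem mem_of_lev_le (r : M) {l : ℕ} (h : D.lev r ≤ l) : r + l • D.v ∈ D.Z := by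
  obtain ⟨k, rfl⟩ := Nat.exists_eq_add_of_le h
  rw [add_nsmul, ← add_assoc]
  exact D.Z.add_mem (D.lev_spec r) (D.Z.nsmul_mem D.hv k)

theorem lev_zero : D.lev 0 = 0 := Nat.le_zero.1 (D.lev_le 0 (by simp))

/-- Apery element -/
noncomputable def ap (r : M) : M := r + D.lev r • D.v

theorem uniq {r r' : M} (hr : r ∈ D.R) (hr' : r' ∈ D.R) {k k' : ℕ}
    (h : r + k • D.v = r' + k' • D.v) : r = r' ∧ k = k' := by
  have h1 := congrArg D.lam h
  rw [lam_add, lam_add] at h1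
  have h2 := congrArg (· / D.h) h1
  simp only [Nat.add_mul_div_left _ _ D.hh, Nat.div_eq_of_lt (D.hR r hr),
    Nat.div_eq_of_lt (D.hR r' hr'), zero_add] at h2
  subst h2
  exact ⟨add_right_cancel h, rfl⟩

theorem not_add {r y : M} (hr : r ∈ D.R) (hy : y ∈ D.Z) : D.ap r ≠ y + D.v := by
  intro h
  have h1 := congrArg D.lam h
  rw [ap, lam_add, map_add, D.hlv] at h1
  have hri := D.hR r hr
  have hl : 1 ≤ D.lev r := by
    by_contra hl
    have : D.lev r = 0 := by omega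
    rw [this] at h1
    omega
  have h2 : y = r + (D.lev r - 1) • D.v := by
    have h3 : y + D.v = r + (D.lev r - 1) • D.v + D.v := by
      rw [← h, add_assoc, ← succ_nsmul, Nat.sub_add_cancel hl]; rfl
    exact add_right_cancel h3
  have := D.lev_le r (h2 ▸ hy)
  omega

theorem closed {r y z : M} (hr : r ∈ D.R) (hx : D.ap r = y + z) (hy : y ∈ D.Z) (hz : z ∈ D.Z) :
    ∃ r' ∈ D.R, y = D.ap r' := by
  have hU : y ∈ D.U := D.hUc y z (hx ▸ D.hUR r hr _)
  obtain ⟨r', hr', k, hk⟩ := D.hUd y hU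
  have h1 : D.lev r' ≤ k := D.lev_le r' (hk ▸ hy)
  rcases h1.eq_or_lt with h | h
  · exact ⟨r', hr', by rw [ap, h]; exact hk⟩
  · exfalso
    obtain ⟨n, hn⟩ : ∃ n, k = D.lev r' + n + 1 := ⟨k - D.lev r' - 1, by omega⟩
    refine D.not_add hr (y := r' + (D.lev r' + n) • D.v + z)
      (D.Z.add_mem (D.mem_of_lev_le r' (by omega)) hz) ?_
    rw [hx, hk, hn, succ_nsmul]
    abel

theorem top {r : M} (hr : r ∈ D.R) : D.lam (D.ap r) + 1 ≤ D.c + D.h := by
  rw [ap, lam_add]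
  have h1 := D.lev_le_qq r
  have h2 := D.hR r hr
  have h3 := D.hc
  rcases Nat.eq_zero_or_pos (D.lev r) with h | h
  · rw [h]; omega
  · have h4 : D.lev r - 1 < qq D.c D.h (D.lam r) := by omega
    rw [lt_qq D.hh] at h4
    have : D.h * D.lev r = D.h * (D.lev r - 1) + D.h := by
      conv_lhs => rw [← Nat.sub_add_cancel h]
      ring
    omega

theorem split {κ : Type} [DecidableEq κ] (K : Finset κ) (w : κ → M) (hw : ∀ g ∈ K, w g ∈ D.Z)
    (t : κ → ℕ) {g : κ} (hg : g ∈ K) {k : ℕ} (hk : k ≤ t g) :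
    ∃ y ∈ D.Z, ∑ u ∈ K, t u • w u = y + k • w g := by
  refine ⟨∑ u ∈ K.erase g, t u • w u + (t g - k) • w g, ?_, ?_⟩
  · exact D.Z.add_mem (D.Z.sum_mem fun u hu =>
      D.Z.nsmul_mem (hw u (mem_of_mem_erase hu)) _) (D.Z.nsmul_mem (hw g hg) _)
  · rw [add_assoc, ← add_nsmul, Nat.sub_add_cancel hk, Finset.sum_erase_add _ _ hg]

theorem charge {κ : Type} [DecidableEq κ] (K : Finset κ) (w : κ → M) (hw : ∀ g ∈ K, w g ∈ D.Z)
    (om : M → ℕ) (hom : ∀ y z, om (y + z) ≤ om y) (homv : ∀ r (k : ℕ), om (r + k • D.v) = om r)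
    (t : M → κ → ℕ) (ht : ∀ r ∈ D.R, D.ap r = ∑ u ∈ K, t r u • w u)
    {g : κ} (hg : g ∈ K) (hbig : D.h ≤ D.lam (w g)) :
    ∑ r ∈ D.R, om r * psi D.h (D.lam (w g)) (t r g) ≤
      ∑ r ∈ D.R, om r * Phi (qq D.c D.h (D.lam r) - D.lev r) := by
  classical
  refine layer_cake _ _ _ _ fun a => ?_
  by_cases hv : ∃ k, a < psi D.h (D.lam (w g)) k
  swap
  · exact ⟨id, fun x hx => absurd ⟨_, hx.2⟩ hv, fun x _ hx => absurd ⟨_, hx⟩ hv⟩
  set k := Nat.find hv with hk
  have hk1 : a < psi D.h (D.lam (w g)) k := Nat.find_spec hv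
  have hk0 : k ≠ 0 := by
    intro h
    rw [h] at hk1
    simp [psi] at hk1
  have sp : ∀ r, ∃ r', r ∈ D.R → a < psi D.h (D.lam (w g)) (t r g) →
      r' ∈ D.R ∧ D.ap r = D.ap r' + k • w g := by
    intro r
    by_cases h : r ∈ D.R ∧ a < psi D.h (D.lam (w g)) (t r g)
    · obtain ⟨y, hy, e⟩ := D.split K w hw (t r) hg (Nat.find_min' hv h.2)
      rw [← ht r h.1] at e
      obtain ⟨r', hr', rfl⟩ := D.closed h.1 e hy (D.Z.nsmul_mem (hw g hg) _)
      exact ⟨r', fun _ _ => ⟨hr', e⟩⟩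
    · exact ⟨0, fun h1 h2 => absurd ⟨h1, h2⟩ h⟩
  choose f hf using sp
  refine ⟨f, ?_, ?_⟩
  · intro x hx x' hx' h
    have e1 := (hf x hx.1 hx.2).2
    have e2 := (hf x' hx'.1 hx'.2).2
    rw [h, ← e2] at e1
    exact (D.uniq hx.1 hx'.1 e1).1
  · intro x hx hxv
    obtain ⟨h1, e⟩ := hf x hx hxv
    refine ⟨h1, ?_, ?_⟩
    · have h2 := D.top hx
      rw [e, map_add, map_nsmul, smul_eq_mul] at h2
      have h3 : k * D.lam (w g) / D.h ≤ qq D.c D.h (D.lam (D.ap (f x))) :=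
        Nat.div_le_div_right (by omega)
      rw [ap, lam_add, qq_add D.hh] at h3
      have h4 : 1 ≤ k * D.lam (w g) / D.h := by
        rw [Nat.le_div_iff_mul_le D.hh]
        have : 1 * D.lam (w g) ≤ k * D.lam (w g) :=
          Nat.mul_le_mul_right _ (Nat.one_le_iff_ne_zero.2 hk0)
        omega
      simp only [psi, hk0, if_false] at hk1
      have h5 : qq D.c D.h (D.lam (f x)) - D.lev (f x) ≠ 0 := by omega
      simp only [Phi, h5, if_false]
      omega
    · have h2 : om x = om (D.ap x) := (homv x _).symm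
      have h3 : om (f x) = om (D.ap (f x)) := (homv _ _).symm
      rw [h2, h3, e]
      exact hom _ _

/-- The one-direction inequality; the parts outside `X` carry level at most `J h`. -/
theorem dir {κ : Type} [DecidableEq κ] (K X : Finset κ) (w : κ → M) (hX : X ⊆ K)
    (hw : ∀ g ∈ K, w g ∈ D.Z) (hbig : ∀ g ∈ X, D.h ≤ D.lam (w g))
    (hgen : ∀ x ∈ D.Z, ∃ t : κ → ℕ, x = ∑ u ∈ K, t u • w u)
    (om : M → ℕ) (hom : ∀ y z, om (y + z) ≤ om y) (homv : ∀ r (k : ℕ), om (r + k • D.v) = om r)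
    (J : ℕ) (hJ : ∀ r ∈ D.R, ∀ t : κ → ℕ, D.ap r = ∑ u ∈ K, t u • w u →
      ∑ u ∈ K \ X, t u * D.lam (w u) ≤ J * D.h) :
    ∑ r ∈ D.R, om r * Phi (D.lev r - J) ≤
      X.card * ∑ r ∈ D.R, om r * Phi (qq D.c D.h (D.lam r) - D.lev r) := by
  classical
  choose! t ht using fun r => hgen (D.ap r) (D.lev_spec r)
  have h1 : ∀ r ∈ D.R, Phi (D.lev r - J) ≤ ∑ g ∈ X, psi D.h (D.lam (w g)) (t r g) := by
    intro r hr
    by_cases hl : D.lev r - J = 0
    · simp [Phi, hl]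
    have e := congrArg D.lam (ht r)
    rw [ap, lam_add, map_sum, ← Finset.sum_sdiff hX] at e
    simp only [map_nsmul, smul_eq_mul] at e
    have e2 := hJ r hr _ (ht r)
    have e3 : (D.lev r - J) * D.h ≤ ∑ u ∈ X, t r u * D.lam (w u) := by
      have : D.h * D.lev r = (D.lev r - J) * D.h + J * D.h := by
        rw [← add_mul, Nat.sub_add_cancel (by omega), mul_comm]
      omega
    have hex : ∃ u ∈ X, t r u ≠ 0 := by
      by_contra h
      push Not at h
      rw [Finset.sum_eq_zero fun u hu => by rw [h u hu, zero_mul]] at e3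
      have := Nat.mul_pos (Nat.pos_of_ne_zero hl) D.hh
      omega
    have hlt : ∑ u ∈ X, t r u * D.lam (w u) <
        (∑ g ∈ X, psi D.h (D.lam (w g)) (t r g)) * D.h := by
      rw [Finset.sum_mul]
      have one : ∀ u : κ, t r u ≠ 0 →
          t r u * D.lam (w u) < psi D.h (D.lam (w u)) (t r u) * D.h := by
        intro u hu
        simp only [psi, hu, if_false]
        have := Nat.lt_div_mul_add (a := t r u * D.lam (w u)) D.hh
        rw [add_mul, one_mul]
        exact this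
      refine Finset.sum_lt_sum (fun u _ => ?_) ?_
      · by_cases hu : t r u = 0
        · simp [hu]
        · exact (one u hu).le
      · obtain ⟨u, hu, hu0⟩ := hex
        exact ⟨u, hu, one u hu0⟩
    have := Nat.lt_of_mul_lt_mul_right (lt_of_le_of_lt e3 hlt)
    simp only [Phi, hl, if_false]
    omega
  calc ∑ r ∈ D.R, om r * Phi (D.lev r - J)
      ≤ ∑ r ∈ D.R, om r * ∑ g ∈ X, psi D.h (D.lam (w g)) (t r g) :=
        Finset.sum_le_sum fun r hr => Nat.mul_le_mul_left _ (h1 r hr)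
    _ = ∑ g ∈ X, ∑ r ∈ D.R, om r * psi D.h (D.lam (w g)) (t r g) := by
        simp_rw [Finset.mul_sum]
        rw [Finset.sum_comm]
    _ ≤ ∑ _g ∈ X, ∑ r ∈ D.R, om r * Phi (qq D.c D.h (D.lam r) - D.lev r) :=
        Finset.sum_le_sum fun g hg =>
          D.charge K w hw om hom homv t (fun r _ => ht r) (hX hg) (hbig g hg)
    _ = _ := by rw [Finset.sum_const, smul_eq_mul]

end Ap

end Pool.Agent.MP_96f5a9_co.h16t
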